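import Pool.Agent.Helper89.OS.St2

/-!
# Project OS (MP_2b6189_al), module STL: the Steinberg lemma
-/

set_option autoImplicit false

namespace Pool.Agent.Helper47.OS

open Matrix ComplexConjugate Pool.Agent.Helper94.YF Pool.Agent.Helper94.YG Pool.Agent.Helper89.OS

variable {I : Type} [Fintype I] [DecidableEq I] {p a : ℕ}

open Classical in
/-- the sum over the elements with `t = 1` -/
noncomputable def T (X : PD I p a) (j : I) (u : I → ℂ) : ℂ :=
  ∑ k, if X.t k = 1 then X.s j k * u k else 0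

lemma T_lin (X : PD I p a) (j : I) (u v : I → ℂ) (b c : ℂ) :
    T X j (fun k => b * u k - c * v k) = b * T X j u - c * T X j v := by
  unfold T
  rw [Finset.mul_sum, Finset.mul_sum, ← Finset.sum_sub_distrib]
  refine Finset.sum_congr rfl fun k _ => ?_
  split_ifs <;> ring

lemma T_mul (X : PD I p a) (j : I) (u : I → ℂ) (b : ℂ) :
    T X j (fun k => b * u k) = b * T X j u := by
  unfold T
  rw [Finset.mul_sum]
  refine Finset.sum_congr rfl fun k _ => ?_
  split_ifs <;> ring

/-- sums over the good indices only -/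
lemma T_congr (X : PD I p a) (Q : ℂ → Prop) (hB : Blk X Q) (j : I) (hj : X.y j ≠ 0)
    (u v : I → ℂ) (h : ∀ k, X.y k ≠ 0 → X.t k = 1 → u k = v k) : T X j u = T X j v := by
  unfold T
  refine Finset.sum_congr rfl fun k _ => ?_
  split_ifs with ht
  · by_cases hk : X.y k = 0
    · rw [hB.sup j k hj hk]
      ring
    · rw [h k hk ht]
  · rfl

/-- the sum of a function supported on `t = 1` -/
lemma T_supp (X : PD I p a) (j : I) (u : I → ℂ) (h : ∀ i, u i ≠ 0 → X.t i = 1) :
    T X j u = ∑ i, X.s j i * u i := by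
  unfold T
  refine Finset.sum_congr rfl fun k _ => ?_
  split_ifs with ht
  · rfl
  · have : u k = 0 := by
      by_contra hc
      exact ht (h k hc)
    rw [this, mul_zero]

omit [Fintype I] in
lemma Q_sum {p : ℕ} {Q : ℂ → Prop} (hQ : PI p Q) (S : Finset I) (u : I → ℂ)
    (h : ∀ k, Q (u k)) : Q (∑ k ∈ S, u k) := by
  classical
  induction S using Finset.induction_on with
  | empty => simpa using hQ.zero
  | insert k S hk ih =>
    rw [Finset.sum_insert hk]
    exact hQ.add _ _ (h k) ih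

open Classical in
/-- the value of `T` on `h = p f - F'` -/
lemma T_h (hHEC : StHEC) (X : PD I p 1) (f : I → ℂ) (hf1 : ∀ c i, f (X.pi c i) = f i)
    (hf2 : ∀ i, f i ≠ 0 → X.t i = 1) (j : I) :
    T X j (fun k => (p : ℂ) * f k - 1 * ∑ i, X.s k i * f i) =
      (p : ℂ) * (∑ i, X.s j i * f i) - ((p : ℂ) * f j +
        ((if X.t j = 1 then (p : ℂ) else 0) - 1) * ∑ i, X.s j i * f i) := by
  rw [T_lin X j f (fun k => ∑ i, X.s k i * f i) (p : ℂ) 1, T_supp X j f hf2, one_mul]
  congr 1
  exact hHEC I p X f hf1 hf2 j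

theorem hSTL : StSTL := by
  classical
  intro hHEC I _ _ p X Q hB f F hf1 hf2 hF
  have hp := X.prime
  have hp0 : (p : ℂ) ≠ 0 := by exact_mod_cast hp.ne_zero
  have hpi_inj : ∀ c i, X.pi c i = X.o → i = X.o := by
    intro c i h
    have h1 : X.pi c⁻¹ (X.pi c i) = i := by
      rw [← X.pi_mul, inv_mul_cancel, X.pi_one]
    rw [h, X.pi_o] at h1
    exact h1.symm
  -- the function `e_o`
  obtain ⟨e, he⟩ : ∃ e : I → ℂ, e = fun i => if i = X.o then 1 else 0 := ⟨_, rfl⟩
  have he1 : ∀ c i, e (X.pi c i) = e i := by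
    intro c i
    rw [he]
    simp only
    by_cases h : i = X.o
    · rw [h, X.pi_o]
    · rw [if_neg h, if_neg (fun h' => h (hpi_inj c i h'))]
  have he2 : ∀ i, e i ≠ 0 → X.t i = 1 := by
    intro i hi
    rw [he] at hi
    by_cases h : i = X.o
    · rw [h, X.t_o]
    · exact absurd (if_neg h) hi
  have heS : ∀ k, ∑ i, X.s k i * e i = X.y k := by
    intro k
    rw [he]
    simp only [mul_ite, mul_one, mul_zero, Finset.sum_ite_eq', Finset.mem_univ, if_true]
    exact X.s_o k
  have hfc1 : ∀ c i, (fun i => (f i : ℂ)) (X.pi c i) = (fun i => (f i : ℂ)) i := by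
    intro c i
    simp only
    rw [hf1]
  have hfc2 : ∀ i, (fun i => (f i : ℂ)) i ≠ 0 → X.t i = 1 := by
    intro i hi
    refine hf2 i fun h => hi ?_
    simp only
    rw [h]
    simp
  -- the values of T on h and v
  obtain ⟨F', hF'⟩ : ∃ F' : I → ℂ, F' = fun k => ∑ i, X.s k i * (f i : ℂ) := ⟨_, rfl⟩
  have hTh : ∀ j, T X j (fun k => (p : ℂ) * f k - 1 * F' k) =
      (p : ℂ) * F' j - ((p : ℂ) * f j + ((if X.t j = 1 then (p : ℂ) else 0) - 1) * F' j) := by
    intro j
    rw [hF']
    exact T_h hHEC X (fun i => (f i : ℂ)) hfc1 hfc2 j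
  have hTv : ∀ j, T X j (fun k => (p : ℂ) * e k - 1 * X.y k) =
      (p : ℂ) * X.y j - ((p : ℂ) * e j + ((if X.t j = 1 then (p : ℂ) else 0) - 1) * X.y j) := by
    intro j
    have h := T_h hHEC X e he1 he2 j
    simp only [heS] at h
    exact h
  obtain ⟨z, hz⟩ : ∃ z : I → ℤ, z = fun j => ((p : ℤ) - X.y X.o) * (p * f j - F j) -
    (p * f X.o - F X.o) * ((if j = X.o then (p : ℤ) else 0) - X.y j) := ⟨_, rfl⟩
  have hzc : ∀ j, X.t j = 1 → (z j : ℂ) = ((p : ℂ) - X.y X.o) * ((p : ℂ) * f j - 1 * F' j) -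
      ((p : ℂ) * f X.o - F X.o) * ((p : ℂ) * e j - 1 * X.y j) := by
    intro j hj
    rw [hz, hF', he]
    simp only
    rw [← hF j hj]
    push_cast
    split_ifs <;> ring
  have hzo : z X.o = 0 := by
    rw [hz]
    simp only [if_true]
    ring
  have hyo : X.y X.o ≠ 0 := fun h => hB.x_nd (by rw [h]; exact dvd_zero _)
  have hTz : ∀ j, X.y j ≠ 0 → X.t j = 1 → T X j (fun k => (z k : ℂ)) = -(z j : ℂ) := by
    intro j hj ht
    rw [T_congr X Q hB j hj (fun k => (z k : ℂ)) (fun k =>
      ((p : ℂ) - X.y X.o) * ((p : ℂ) * f k - 1 * F' k) -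
      ((p : ℂ) * f X.o - F X.o) * ((p : ℂ) * e k - 1 * X.y k)) (fun k _ hk => hzc k hk)]
    rw [T_lin X j (fun k => (p : ℂ) * f k - 1 * F' k) (fun k => (p : ℂ) * e k - 1 * X.y k),
      hTh, hTv, hzc j ht, if_pos ht]
    ring
  -- descent
  have hdesc : ∀ r : ℕ, ∀ j, X.y j ≠ 0 → X.t j = 1 → (p : ℤ) ^ r ∣ z j := by
    intro r
    induction r with
    | zero => intro j _ _; simp
    | succ r ih =>
      obtain ⟨z', hz'⟩ : ∃ z' : I → ℤ, z' = fun j => z j / (p : ℤ) ^ r := ⟨_, rfl⟩
      have hzz : ∀ j, X.y j ≠ 0 → X.t j = 1 → z j = (p : ℤ) ^ r * z' j := by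
        intro j hj ht
        rw [hz']
        exact (Int.mul_ediv_cancel' (ih j hj ht)).symm
      have hz'o : z' X.o = 0 := by
        rw [hz']
        simp only
        rw [hzo, Int.zero_ediv]
      have hTz' : ∀ j, X.y j ≠ 0 → X.t j = 1 → T X j (fun k => (z' k : ℂ)) = -(z' j : ℂ) := by
        intro j hj ht
        have h1 := hTz j hj ht
        rw [T_congr X Q hB j hj (fun k => (z k : ℂ)) (fun k => (p : ℂ) ^ r * (z' k : ℂ))
          (fun k h2 h3 => by
            rw [hzz k h2 h3]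
            push_cast
            ring), T_mul, hzz j hj ht] at h1
        push_cast at h1
        have h4 : (p : ℂ) ^ r ≠ 0 := pow_ne_zero _ hp0
        apply mul_left_cancel₀ h4
        rw [h1]
        ring
      intro j hj ht
      have hQ := hB.pi
      have h5 : Q (∑ k, if X.t k = 1 then (z' k : ℂ) * (X.s j k - X.d j * X.y k) else 0) := by
        refine Q_sum hQ _ _ fun k => ?_
        split_ifs
        · exact hQ.mul _ _ isIntegral_algebraMap (hB.cg j hj k)
        · exact hQ.zero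
      have h6 : (∑ k, if X.t k = 1 then (z' k : ℂ) * (X.s j k - X.d j * X.y k) else 0)
          = T X j (fun k => (z' k : ℂ)) - X.d j * T X X.o (fun k => (z' k : ℂ)) := by
        unfold T
        rw [Finset.mul_sum, ← Finset.sum_sub_distrib]
        refine Finset.sum_congr rfl fun k _ => ?_
        split_ifs
        · rw [X.s_symm X.o k, X.s_o k]
          ring
        · ring
      rw [h6, hTz' j hj ht, hTz' X.o hyo X.t_o, hz'o] at h5
      have h7 : Q (((-z' j : ℤ) : ℂ)) := by
        convert h5 using 1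
        push_cast
        ring
      have h8 : (p : ℤ) ∣ z' j := (Int.dvd_neg).1 ((hQ.int_iff _).1 h7)
      rw [hzz j hj ht, pow_succ]
      exact mul_dvd_mul_left _ h8
  have hz0 : ∀ j, X.y j ≠ 0 → X.t j = 1 → z j = 0 := by
    intro j hj ht
    by_contra hc
    obtain ⟨r, hr⟩ : ∃ r : ℕ, (z j).natAbs < 2 ^ r := ⟨(z j).natAbs, Nat.lt_two_pow_self⟩
    have h1 := hdesc r j hj ht
    have h2 : p ^ r ∣ (z j).natAbs := by
      have := Int.natAbs_dvd_natAbs.2 h1
      simpa [Int.natAbs_pow] using this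
    have h3 : p ^ r ≤ (z j).natAbs := Nat.le_of_dvd (Int.natAbs_pos.2 hc) h2
    have h4 : 2 ^ r ≤ p ^ r := Nat.pow_le_pow_left hp.two_le r
    omega
  refine ⟨?_, ?_⟩
  · intro j hj ht
    have h1 := hz0 j hj ht
    rw [hz] at h1
    simp only at h1
    linarith
  · intro j hj ht
    have h1 : ∀ k, X.y k ≠ 0 → X.t k = 1 →
        ((p : ℂ) - X.y X.o) * ((p : ℂ) * f k - 1 * F' k) =
        ((p : ℂ) * f X.o - F X.o) * ((p : ℂ) * e k - 1 * X.y k) := by
      intro k hk hk1
      have h2 := hzc k hk1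
      rw [hz0 k hk hk1] at h2
      push_cast at h2
      linear_combination -h2
    have h3 := T_congr X Q hB j hj _ _ h1
    rw [T_mul, T_mul, hTh, hTv, if_neg ht] at h3
    have h4 : f j = 0 := by
      by_contra hc
      exact ht (hf2 j hc)
    have h5 : e j = 0 := by
      by_contra hc
      exact ht (he2 j hc)
    rw [h4, h5] at h3
    have h6 : ((p : ℂ) + 1) ≠ 0 := by
      exact_mod_cast (Nat.succ_ne_zero p)
    have h7 : F' j = ∑ i, X.s j i * (f i : ℂ) := by rw [hF']
    rw [← h7]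
    apply mul_left_cancel₀ h6
    push_cast at h3
    linear_combination h3

end Pool.Agent.Helper47.OS
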